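import Pool.Agent.UL6.Stmts

/-!
# Squad UL6 (MP_c7c9bf_co), row GCB (helper62)
-/

set_option autoImplicit false

open MeasureTheory Set

namespace Pool.Agent.UL6.H62

open Pool.Agent.UL3 Pool.Agent.UL4 Pool.Agent.UL5 Pool.Agent.UL6

theorem gcb (hSeb : SebStmt) (hLsb : LsbStmt) (hFgv : FgvStmt) : GcbStmt := by
  intro C t hC ht0 ht1
  obtain ⟨u, q, huC, hui, h1, h2, h3⟩ := hSeb C t hC ht0 ht1
  have h4 : Hm C u ≤ (1 + t) * cr u q := by nlinarith
  obtain ⟨v, z, hv, hd, hz, hdt⟩ := hLsb C u q t hC (by linarith) (by linarith) huC hui h4 h3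
  obtain ⟨-, hV⟩ := hFgv C (1 - t) 1 hC (by linarith) one_pos (by linarith)
  refine ⟨v, z, hv, hd, hz, ?_⟩
  rw [hdt, hV]
  nlinarith

end Pool.Agent.UL6.H62
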