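import Pool.Agent.UL6.Stmts
import Pool.Agent.Helper62_UL5.SDC
import Pool.Agent.Helper92_UL5.DCI

/-!
# Squad UL6 (MP_c7c9bf_co), row TDA (helper62): the truncated double cone
-/

set_option autoImplicit false

open MeasureTheory Set

namespace Pool.Agent.UL6.H62

open Pool.Agent.UL3 Pool.Agent.UL4 Pool.Agent.UL5 Pool.Agent.UL6 Pool.Agent.UL5.H92

theorem tda : TdaStmt := by
  intro C t hC ht0 ht1
  have h0C : (0 : ℝ × ℝ) ∈ C := interior_subset hC.zero_mem
  refine ⟨?_, ?_, ?_, ?_⟩
  · rintro x ⟨hx, hxc⟩ y ⟨hy, hyc⟩ a b ha hb hab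
    have hxd : x ∈ dco C := ⟨by linarith, hxc⟩
    have hyd : y ∈ dco C := ⟨by linarith, hyc⟩
    refine ⟨?_, (Pool.Agent.UL5.H62.dco_convex C hC.cvx h0C hxd hyd ha hb hab).2⟩
    have h2 : (a • x + b • y) 2 = a * x 2 + b * y 2 := rfl
    rw [h2]
    have h3 : |a * x 2 + b * y 2| ≤ a * |x 2| + b * |y 2| := by
      refine (abs_add_le _ _).trans (le_of_eq ?_)
      rw [abs_mul, abs_mul, abs_of_nonneg ha, abs_of_nonneg hb]
    have h4 : a * |x 2| ≤ a * (1 - t) := mul_le_mul_of_nonneg_left hx ha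
    have h5 : b * |y 2| ≤ b * (1 - t) := mul_le_mul_of_nonneg_left hy hb
    have h6 : a * (1 - t) + b * (1 - t) = 1 - t := by rw [← add_mul, hab, one_mul]
    linarith
  · rintro x ⟨hx, c, hc, hxc⟩
    have h2 : (-x) 2 = -(x 2) := rfl
    have h01 : ((-x) 0, (-x) 1) = -(x 0, x 1) := rfl
    refine ⟨?_, -c, hC.sym c hc, ?_⟩
    · rw [h2, abs_neg]
      exact hx
    · rw [h2, abs_neg, h01, hxc, smul_neg]
  · rintro s hs x ⟨h0, h1, c, hc, hxc⟩
    refine ⟨?_, c, hc, ?_⟩
    · rw [abs_of_nonneg h0]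
      linarith
    · rw [abs_of_nonneg h0, hxc, one_mul]
  · intro p z hz
    have hle : ∀ s : ℝ, up p s ∈ UL6.tda C t → |s| ≤ 1 - t := fun s hs => hs.1
    have hlt : |z| < 1 - t := by
      obtain ⟨S, hS⟩ : ∃ S : Set ℝ, S = (fun s : ℝ => up p s) ⁻¹' interior (UL6.tda C t) := ⟨_, rfl⟩
      have hSo : IsOpen S := by
        rw [hS]
        exact isOpen_interior.preimage (up_cont continuous_const continuous_id)
      have hzS : z ∈ S := by
        rw [hS]
        exact hz
      obtain ⟨δ, hδ, hball⟩ := Metric.isOpen_iff.1 hSo z hzS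
      have h1 : ∀ s : ℝ, |s - z| < δ → |s| ≤ 1 - t := by
        intro s hs
        have h2 : s ∈ S := hball (by rw [Metric.mem_ball, Real.dist_eq]; exact hs)
        rw [hS] at h2
        exact hle s (interior_subset h2)
      rcases le_total 0 z with h0 | h0
      · have h2 := h1 (z + δ / 2) (by
          rw [add_sub_cancel_left, abs_of_pos (by linarith)]
          linarith)
        have h3 := (abs_le.1 h2).2
        rw [abs_of_nonneg h0]
        linarith
      · have h2 := h1 (z - δ / 2) (by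
          rw [sub_sub_cancel_left, abs_neg, abs_of_pos (by linarith)]
          linarith)
        have h3 := (abs_le.1 h2).1
        rw [abs_of_nonpos h0]
        linarith
    refine ⟨hlt, ?_⟩
    have h1 : 0 < 1 - |z| := by linarith
    have hsub : (fun q : ℝ × ℝ => up ((1 - |z|) • q) z) ⁻¹' interior (UL6.tda C t) ⊆ C := by
      intro q hq
      obtain ⟨-, c, hc, hqc⟩ := interior_subset hq
      have e1 : (1 - |z|) • q = (1 - |z|) • c := hqc
      have e2 : q = c := smul_right_injective _ h1.ne' e1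
      rw [e2]
      exact hc
    refine interior_maximal hsub (isOpen_interior.preimage
      (up_cont (continuous_const_smul _) continuous_const)) ?_
    show up ((1 - |z|) • (1 - |z|)⁻¹ • p) z ∈ interior (UL6.tda C t)
    rw [smul_inv_smul₀ h1.ne']
    exact hz

end Pool.Agent.UL6.H62
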