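import Pool.Agent.UL6.Stmts2
import Pool.Agent.Helper7_UL6.FGV
import Pool.Agent.Helper7_UL5.DCB
import Pool.Agent.Helper27_UL5.DGD

/-!
# Squad UL6 (MP_c7c9bf_co), row TDV (helper62): the double frustum in the other scaling
-/

set_option autoImplicit false

open MeasureTheory Set

namespace Pool.Agent.UL6.H62

open Pool.Agent.UL3 Pool.Agent.UL4 Pool.Agent.UL5 Pool.Agent.UL6

theorem tda_eq {C : Set (ℝ × ℝ)} {t : ℝ} (ht0 : 0 ≤ t) :
    UL6.tda C t = dco C ∩ {x : E3 | |x 2| ≤ 1 - t} := by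
  ext x
  constructor
  · rintro ⟨hx, hc⟩
    exact ⟨⟨by linarith, hc⟩, hx⟩
  · rintro ⟨⟨-, hc⟩, hx⟩
    exact ⟨hx, hc⟩

theorem tda_union {C : Set (ℝ × ℝ)} (hC : PB C) {t : ℝ} :
    UL6.tda C t = frg C 1 (1 - t) ∪ (fun x : E3 => -x) ⁻¹' frg C 1 (1 - t) := by
  ext x
  constructor
  · rintro ⟨hx, c, hc, hxc⟩
    rcases le_total 0 (x 2) with h | h
    · rw [abs_of_nonneg h] at hx hxc
      exact Or.inl ⟨h, hx, c, hc, by rw [one_mul]; exact hxc⟩
    · rw [abs_of_nonpos h] at hx hxc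
      refine Or.inr ⟨?_, ?_, -c, hC.sym c hc, ?_⟩
      · show 0 ≤ -(x 2)
        linarith
      · show -(x 2) ≤ 1 - t
        exact hx
      · show (-(x 0), -(x 1)) = (1 - 1 * -(x 2)) • -c
        rw [one_mul, smul_neg, ← hxc]
        rfl
  · rintro (⟨h0, h1, c, hc, hxc⟩ | ⟨h0, h1, c, hc, hxc⟩)
    · refine ⟨?_, c, hc, ?_⟩
      · rw [abs_of_nonneg h0]
        exact h1
      · rw [abs_of_nonneg h0, hxc, one_mul]
    · have h0' : 0 ≤ -(x 2) := h0
      have h1' : -(x 2) ≤ 1 - t := h1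
      have hxc' : (-(x 0), -(x 1)) = (1 - 1 * -(x 2)) • c := hxc
      have hx : (x 0, x 1) = -((-(x 0), -(x 1)) : ℝ × ℝ) := by
        rw [Prod.neg_mk, neg_neg, neg_neg]
      refine ⟨?_, -c, hC.sym c hc, ?_⟩
      · rw [abs_of_nonpos (by linarith)]
        exact h1'
      · rw [abs_of_nonpos (by linarith), hx, hxc', one_mul, smul_neg]

theorem vol_two {C : Set (ℝ × ℝ)} {t : ℝ} (hC : PB C) (h2 : CB (frg C 1 (1 - t))) :
    V (UL6.tda C t) = 2 * V (frg C 1 (1 - t)) := by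
  have hm : MeasurableSet (frg C 1 (1 - t)) := h2.cpt.measurableSet
  have hm' : MeasurableSet ((fun x : E3 => -x) ⁻¹' frg C 1 (1 - t)) := hm.preimage (by fun_prop)
  have hv : (volume : Measure E3) ((fun x : E3 => -x) ⁻¹' frg C 1 (1 - t))
      = volume (frg C 1 (1 - t)) := Measure.measure_preimage_neg volume (frg C 1 (1 - t))
  have h4 : (volume : Measure E3) (frg C 1 (1 - t) ∩ (fun x : E3 => -x) ⁻¹' frg C 1 (1 - t))
      = 0 := by
    refine measure_mono_null ?_ Pool.Agent.UL5.H27.plane_null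
    rintro x ⟨hx, hx'⟩
    have h5 : 0 ≤ x 2 := hx.1
    have h6 : 0 ≤ (-x) 2 := hx'.1
    have h7 : (-x) 2 = - x 2 := rfl
    show x 2 = 0
    linarith
  have h5 := measure_union_add_inter (μ := (volume : Measure E3)) (frg C 1 (1 - t)) hm'
  rw [h4, add_zero, hv] at h5
  have h8 : (volume : Measure E3) (frg C 1 (1 - t)) ≠ ⊤ := h2.cpt.measure_lt_top.ne
  unfold V Measure.real
  rw [tda_union hC, h5, ENNReal.toReal_add h8 h8]
  ring

theorem tdv : TdvStmt := by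
  intro C t hC ht0 ht1
  obtain ⟨hCB, hV⟩ := Pool.Agent.UL6.H7.fgv C 1 (1 - t) hC zero_le_one (by linarith) (by linarith)
  have hsub : UL6.tda C t ⊆ dco C := by
    rw [tda_eq ht0]
    exact inter_subset_left
  refine ⟨⟨?_, ?_, ?_, ?_⟩, ?_, hsub, ?_⟩
  · rw [tda_eq ht0]
    refine (Pool.Agent.UL5.H7.dco_cpt hC).inter_right (isClosed_le ?_ continuous_const)
    exact Pool.Agent.UL5.H7.ht_cont.abs
  · rw [tda_eq ht0]
    refine (Pool.Agent.UL5.H7.dco_cvx hC).inter ?_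
    intro x hx y hy a b ha hb hab
    have hx' : |x 2| ≤ 1 - t := hx
    have hy' : |y 2| ≤ 1 - t := hy
    show |a * x 2 + b * y 2| ≤ 1 - t
    have h3 : |a * x 2 + b * y 2| ≤ a * |x 2| + b * |y 2| := by
      refine (abs_add_le _ _).trans (le_of_eq ?_)
      rw [abs_mul, abs_mul, abs_of_nonneg ha, abs_of_nonneg hb]
    have h4 : a * |x 2| ≤ a * (1 - t) := mul_le_mul_of_nonneg_left hx' ha
    have h5 : b * |y 2| ≤ b * (1 - t) := mul_le_mul_of_nonneg_left hy' hb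
    have h6 : a * (1 - t) + b * (1 - t) = 1 - t := by rw [← add_mul, hab, one_mul]
    linarith
  · rintro x ⟨hx, c, hc, hxc⟩
    have h2 : (-x) 2 = -(x 2) := rfl
    have h01 : ((-x) 0, (-x) 1) = -(x 0, x 1) := rfl
    refine ⟨?_, -c, hC.sym c hc, ?_⟩
    · rw [h2, abs_neg]
      exact hx
    · rw [h2, abs_neg, h01, hxc, smul_neg]
  · refine hCB.int.mono (interior_mono ?_)
    rw [tda_union hC]
    exact subset_union_left
  · rw [vol_two hC hCB, hV]
    ring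
  · rintro s hs x ⟨hx, hc⟩
    exact ⟨by linarith, hc⟩

end Pool.Agent.UL6.H62
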